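import Pool.Agent.NH65.SP.All

set_option autoImplicit false
open MeasureTheory
open scoped UpperHalfPlane MatrixGroups

/-!
# MP_8fded1_nt: large values of Hecke-Maass forms spread, with polynomial dependence

For every Hecke-Maass cusp form `U` for the full modular group and every `N`, a large value `|U z|`
forces values of size at least `N ^ (-555) |U z|` at `N` points which are `N ^ (-228)`-separated
modulo `SL_2(Z)`.  The exponents are absolute, so `N` may grow with the spectral parameter: the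
sup-norm conjecture is equivalent to the same bound outside an exceptional set of polynomially many
small discs, which may depend on the form.
-/

namespace Pool.Agent.Results.MP_8fded1_nt.LargeValuesSpread

/-- `U` is an `L^2`-normalised Hecke-Maass cusp form for `SL_2(Z)` with Laplace eigenvalue
`1/4 + T^2` (the clauses are those of the frozen statement of the problem). -/
def IsHeckeMaass (U : ℂ → ℂ) (T : ℝ) : Prop :=
  ContDiffOn ℝ 2 U {z : ℂ | 0 < z.im} ∧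
  (∀ z : ℂ, 0 < z.im → U (z + 1) = U z ∧ U (-z⁻¹) = U z) ∧
  (∀ z : ℂ, 0 < z.im →
    -((z.im : ℂ)) ^ 2 *
      (deriv (deriv (fun t : ℝ => U (z + (t : ℂ)))) 0 +
        deriv (deriv (fun t : ℝ => U (z + (t : ℂ) * Complex.I))) 0)
      = (1 / 4 + (T : ℂ) ^ 2) * U z) ∧
  (∀ y : ℝ, 0 < y →
    intervalIntegral (fun x : ℝ => U ((x : ℂ) + (y : ℂ) * Complex.I)) 0 1 volume = 0) ∧
  (∫ z in {z : ℂ | 0 < z.im ∧ |z.re| ≤ 1 / 2 ∧ 1 ≤ ‖z‖}, ‖U z‖ ^ 2 / z.im ^ 2) = 1 ∧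
  (∀ n : ℕ, 1 ≤ n → ∃ c : ℂ, ∀ z : ℂ, 0 < z.im →
    ∑ d ∈ n.divisors, ∑ b ∈ Finset.range d,
        U ((((n / d : ℕ) : ℂ) * z + (b : ℂ)) / (d : ℂ)) = c * U z)

/-- The sup-norm bound with exponent `s` on the set `K`. -/
def SupNormBound (K : Set ℍ) (s : ℝ) : Prop :=
  ∃ C : ℝ, ∀ U : ℂ → ℂ, ∀ T : ℝ, 1 ≤ T → IsHeckeMaass U T → ∀ z ∈ K, ‖U z‖ ≤ C * T ^ s

/-- The bound `|U w| ≤ C T ^ (s + ε) (Im w) ^ 15` for `Im w ≥ 1 / 2`, outside at most
`T ^ (ε / 228)` discs of radius `2 ^ (-229) T ^ (-ε)` (and their modular translates) whose centres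
`ζ i` may depend on the form; for every `ε > 0`, with `C` depending on `ε` only. -/
def WeakBound (s : ℝ) : Prop :=
  ∀ ε : ℝ, 0 < ε → ∃ C : ℝ, ∀ U : ℂ → ℂ, ∀ T : ℝ, 1 ≤ T → IsHeckeMaass U T →
    ∃ n : ℕ, (n : ℝ) ≤ T ^ (ε / 228) ∧ ∃ ζ : Fin n → ℍ, ∀ w : ℍ, 1 / 2 ≤ w.im →
      (∀ i, ∀ g : SL(2, ℤ), T ^ (-ε) / 2 ^ 229 ≤ dist w (g • ζ i)) →
        ‖U (w : ℂ)‖ ≤ C * T ^ (s + ε) * w.im ^ 15

/-- **Large values of Hecke-Maass forms spread, polynomially.** (1) For every `N ≥ 2`, every form `U`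
and every `z` with `Im z ≥ 1 / 2` there are `N` points `w i` of height between `N ^ (-76)` and `1`,
pairwise `N ^ (-228)`-separated modulo `SL_2(Z)`, with `|U z| ≤ (2 Im z) ^ 15 N ^ 555 |U (w i)|`.
(2) For every exponent `s`, the bounds `|U| ≤ C T ^ (s + ε)` on all compact sets, for all `ε > 0`, are
equivalent to `WeakBound s`. -/
theorem result :
    (∀ N : ℕ, 2 ≤ N → ∀ U : ℂ → ℂ, ∀ T : ℝ, IsHeckeMaass U T →
      ∀ z : ℍ, 1 / 2 ≤ z.im → ∃ w : Fin N → ℍ,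
        (∀ i, ((N : ℝ) ^ 76)⁻¹ ≤ (w i).im ∧ (w i).im ≤ 1 ∧
          ‖U (z : ℂ)‖ ≤ (2 * z.im) ^ 15 * (N : ℝ) ^ 555 * ‖U (w i : ℂ)‖) ∧
        ∀ i j, i ≠ j → ∀ g : SL(2, ℤ), ((N : ℝ) ^ 228)⁻¹ ≤ dist (w i) (g • w j)) ∧
    (∀ s : ℝ, (∀ K : Set ℍ, IsCompact K → ∀ ε : ℝ, 0 < ε → SupNormBound K (s + ε)) ↔
      WeakBound s) :=
  ⟨NH65.SP.All.s_spread, NH65.SP.All.s_equiv⟩

end Pool.Agent.Results.MP_8fded1_nt.LargeValuesSpread
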