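import Pool.Agent.NH65.SN.Main
import Pool.Agent.NH65.SN.All

set_option autoImplicit false
open MeasureTheory
open scoped UpperHalfPlane MatrixGroups

/-!
# MP_8fded1_nt: the sup-norm problem off discs that depend on the form, and off closed geodesics

For every Hecke-Maass cusp form `U` for the full modular group a large value of `|U|` on a compact
set is, up to a constant factor, also attained on a fixed larger compact set at a point which is
far away from `N` prescribed points (which may depend on `U`), from their modular translates, and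
from all closed geodesics of (nonsquare) discriminant at most `D₀`.  So in the sup-norm problem, for
every exponent `s`, `N` exceptional discs depending on the form and neighbourhoods of the closed
geodesics of discriminant at most `D₀` may be ignored.
-/

namespace Pool.Agent.Results.MP_8fded1_nt.OffDiscsAndGeodesics

/-- `U` is an `L^2`-normalised Hecke-Maass cusp form for `SL_2(Z)` with Laplace eigenvalue
`1/4 + T^2` (the clauses are those of the frozen statement of the problem). -/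
def IsHeckeMaass (U : ℂ → ℂ) (T : ℝ) : Prop :=
  ContDiffOn ℝ 2 U {z : ℂ | 0 < z.im} ∧
  (∀ z : ℂ, 0 < z.im → U (z + 1) = U z ∧ U (-z⁻¹) = U z) ∧
  (∀ z : ℂ, 0 < z.im →
    -((z.im : ℂ)) ^ 2 *
      (deriv (deriv (fun t : ℝ => U (z + (t : ℂ)))) 0 +
        deriv (deriv (fun t : ℝ => U (z + (t : ℂ) * Complex.I))) 0)
      = (1 / 4 + (T : ℂ) ^ 2) * U z) ∧
  (∀ y : ℝ, 0 < y →
    intervalIntegral (fun x : ℝ => U ((x : ℂ) + (y : ℂ) * Complex.I)) 0 1 volume = 0) ∧
  (∫ z in {z : ℂ | 0 < z.im ∧ |z.re| ≤ 1 / 2 ∧ 1 ≤ ‖z‖}, ‖U z‖ ^ 2 / z.im ^ 2) = 1 ∧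
  (∀ n : ℕ, 1 ≤ n → ∃ c : ℂ, ∀ z : ℂ, 0 < z.im →
    ∑ d ∈ n.divisors, ∑ b ∈ Finset.range d,
        U ((((n / d : ℕ) : ℂ) * z + (b : ℂ)) / (d : ℂ)) = c * U z)

/-- `z` lies on a geodesic `A |z|² + B Re z + C = 0` with integers `A, B, C`, `B² - 4AC = D`.  If
`D > 0` is not a square, these are the (lifts of the) closed geodesics of discriminant `D` of the
modular surface. -/
def Geo (D : ℤ) (z : ℍ) : Prop :=
  ∃ A B C : ℤ, B ^ 2 - 4 * A * C = D ∧ (A : ℝ) * ‖(z : ℂ)‖ ^ 2 + B * z.re + C = 0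

/-- `w` has (hyperbolic) distance at least `δ` from all closed geodesics of nonsquare discriminant
`D ≤ D₀`. -/
def Far (D₀ : ℕ) (δ : ℝ) (w : ℍ) : Prop :=
  ∀ D : ℤ, 0 < D → D ≤ D₀ → ¬ IsSquare D → ∀ e : ℍ, Geo D e → δ ≤ dist w e

/-- `w` has (hyperbolic) distance at least `δ` from all modular translates of the points `ζ i`. -/
def FarPts {N : ℕ} (ζ : Fin N → ℍ) (δ : ℝ) (w : ℍ) : Prop :=
  ∀ i, ∀ g : SL(2, ℤ), δ ≤ dist w (g • ζ i)

/-- The sup-norm bound with exponent `s` on the set `K`. -/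
def SupNormBound (K : Set ℍ) (s : ℝ) : Prop :=
  ∃ C : ℝ, ∀ U : ℂ → ℂ, ∀ T : ℝ, 1 ≤ T → IsHeckeMaass U T → ∀ z ∈ K, ‖U z‖ ≤ C * T ^ s

/-- The sup-norm bound with exponent `s` on the set `L`, outside `N` discs of radius `δ` (and their
modular translates) whose centres may depend on the form, and outside the `δ`-neighbourhoods of the
closed geodesics of discriminant at most `D₀`. -/
def WeakBound (D₀ N : ℕ) (L : Set ℍ) (δ s : ℝ) : Prop :=
  ∃ C : ℝ, ∀ U : ℂ → ℂ, ∀ T : ℝ, 1 ≤ T → IsHeckeMaass U T → ∃ ζ : Fin N → ℍ,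
    ∀ w ∈ L, Far D₀ δ w → FarPts ζ δ w → ‖U w‖ ≤ C * T ^ s

/-- **Large values of Hecke-Maass forms spread.** (1) For every compact `K` there are a compact `L`,
`δ > 0` and `C` such that for every form `U`, every `N` points and every `z ∈ K` there is `w ∈ L`
with `|U z| ≤ C |U w|` at distance at least `δ` from the modular translates of the points and
from the closed geodesics of discriminant at most `D₀`.  (2) There are even `N` such points `w` which
are `δ`-separated modulo `SL_2(Z)`.  (3) For every exponent `s`, the sup-norm bound on all compact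
sets is equivalent to the weak one. -/
theorem result :
    (∀ D₀ N : ℕ, ∀ K : Set ℍ, IsCompact K →
      ∃ L : Set ℍ, IsCompact L ∧ ∃ δ : ℝ, 0 < δ ∧ ∃ C : ℝ,
        ∀ U : ℂ → ℂ, ∀ T : ℝ, IsHeckeMaass U T → ∀ ζ : Fin N → ℍ, ∀ z ∈ K,
          ∃ w ∈ L, Far D₀ δ w ∧ FarPts ζ δ w ∧ ‖U z‖ ≤ C * ‖U w‖) ∧
    (∀ D₀ N : ℕ, ∀ K : Set ℍ, IsCompact K →
      ∃ L : Set ℍ, IsCompact L ∧ ∃ δ : ℝ, 0 < δ ∧ ∃ C : ℝ,
        ∀ U : ℂ → ℂ, ∀ T : ℝ, IsHeckeMaass U T → ∀ ζ : Fin N → ℍ, ∀ z ∈ K,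
          ∃ w : Fin N → ℍ,
            (∀ i, w i ∈ L ∧ Far D₀ δ (w i) ∧ FarPts ζ δ (w i) ∧ ‖U z‖ ≤ C * ‖U (w i)‖) ∧
            ∀ i j, i ≠ j → ∀ g : SL(2, ℤ), δ ≤ dist (w i) (g • w j)) ∧
    (∀ D₀ N : ℕ, ∀ s : ℝ,
      (∀ K : Set ℍ, IsCompact K → SupNormBound K s) ↔
      (∀ L : Set ℍ, IsCompact L → ∀ δ : ℝ, 0 < δ → WeakBound D₀ N L δ s)) := by
  have h1 : ∀ D₀ N : ℕ, ∀ K : Set ℍ, IsCompact K →
      ∃ L : Set ℍ, IsCompact L ∧ ∃ δ : ℝ, 0 < δ ∧ ∃ C : ℝ,
        ∀ U : ℂ → ℂ, ∀ T : ℝ, IsHeckeMaass U T → ∀ ζ : Fin N → ℍ, ∀ z ∈ K,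
          ∃ w ∈ L, Far D₀ δ w ∧ FarPts ζ δ w ∧ ‖U z‖ ≤ C * ‖U w‖ := NH65.SN.All.s_all
  refine ⟨h1, ?_, ?_⟩
  · intro D₀ N K hK
    obtain ⟨L, hL, δ, hδ, C, hC⟩ := h1 D₀ (N + N) K hK
    refine ⟨L, hL, δ, hδ, C, ?_⟩
    intro U T hU ζ z hz
    have key : ∀ k : ℕ, k ≤ N → ∃ w : Fin k → ℍ,
        (∀ i, w i ∈ L ∧ Far D₀ δ (w i) ∧ FarPts ζ δ (w i) ∧ ‖U z‖ ≤ C * ‖U (w i)‖) ∧
          ∀ i j, i ≠ j → ∀ g : SL(2, ℤ), δ ≤ dist (w i) (g • w j) := by
      intro k
      induction k with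
      | zero => intro _; exact ⟨Fin.elim0, fun i => i.elim0, fun i => i.elim0⟩
      | succ k ih =>
        intro hk
        obtain ⟨w, hw1, hw2⟩ := ih (by omega)
        obtain ⟨v, hvL, hvF, hvP, hvU⟩ := hC U T hU
          (Fin.addCases (fun i : Fin N => if h : (i : ℕ) < k then w ⟨i, h⟩ else z) ζ) z hz
        have hvP' : ∀ i : Fin k, ∀ g : SL(2, ℤ), δ ≤ dist v (g • w i) := by
          intro i g
          have := hvP (Fin.castAdd N ⟨i, by omega⟩) g
          beta_reduce at this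
          rw [Fin.addCases_left] at this
          simpa using this
        have hvZ : FarPts ζ δ v := by
          intro i g
          have := hvP (Fin.natAdd N i) g
          beta_reduce at this
          rwa [Fin.addCases_right] at this
        refine ⟨Fin.snoc w v, ?_, ?_⟩
        · intro i
          refine Fin.lastCases ?_ (fun j => ?_) i
          · simpa using ⟨hvL, hvF, hvZ, hvU⟩
          · simpa using hw1 j
        · intro i j
          refine Fin.lastCases ?_ (fun i' => ?_) i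
          · refine Fin.lastCases ?_ (fun j' => ?_) j
            · intro h; exact absurd rfl h
            · intro _ g
              simpa using hvP' j' g
          · refine Fin.lastCases ?_ (fun j' => ?_) j
            · intro _ g
              have := hvP' i' g⁻¹
              rw [dist_comm, ← NH65.SN.All.iso g] at this
              simpa using this
            · intro h g
              have : i' ≠ j' := fun e => h (by rw [e])
              simpa using hw2 i' j' this g
    exact key N le_rfl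
  · intro D₀ N s
    constructor
    · intro h L hL δ _
      obtain ⟨C, hC⟩ := h L hL
      exact ⟨C, fun U T hT hU => ⟨fun _ => UpperHalfPlane.I, fun w hw _ _ => hC U T hT hU w hw⟩⟩
    · intro h K hK
      obtain ⟨L, hL, δ, hδ, C, hC⟩ := h1 D₀ N K hK
      obtain ⟨C', hC'⟩ := h L hL δ hδ
      refine ⟨max C 0 * C', ?_⟩
      intro U T hT hU z hz
      obtain ⟨ζ, hζ⟩ := hC' U T hT hU
      obtain ⟨w, hw, h2, h3, h4⟩ := hC U T hU ζ z hz
      have h5 := hζ w hw h2 h3
      calc ‖U z‖ ≤ C * ‖U w‖ := h4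
        _ ≤ max C 0 * ‖U w‖ := mul_le_mul_of_nonneg_right (le_max_left _ _) (norm_nonneg _)
        _ ≤ max C 0 * (C' * T ^ s) := mul_le_mul_of_nonneg_left h5 (le_max_right _ _)
        _ = max C 0 * C' * T ^ s := by ring

end Pool.Agent.Results.MP_8fded1_nt.OffDiscsAndGeodesics
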